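import Pool.Agent.Lib.MP_acafa7_al.MS.Iface1

/-! Module HT: heights on a set with finitely many orbits. -/

namespace MSG.H96

open MSG

/-- orbit relation of a permutation -/
def orbS {V : Type} (a : Equiv.Perm V) : Setoid V := Equiv.Perm.SameCycle.setoid a

theorem ht : HtStatement := by
  classical
  intro V X a hF hloc S hS
  -- representatives
  let r : V → V := fun x => (Quotient.mk (orbS a) x).out
  have hr : ∀ x, ∃ n : ℤ, (a ^ n) (r x) = x := by
    intro x
    have h : (orbS a).r (r x) x := Quotient.mk_out (s := orbS a) x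
    obtain ⟨n, hn⟩ := h
    exact ⟨n, hn⟩
  choose h0 hh0 using hr
  have hrinv : ∀ (x : V) (n : ℤ), r ((a ^ n) x) = r x := by
    intro x n
    have : Quotient.mk (orbS a) ((a ^ n) x) = Quotient.mk (orbS a) x := by
      apply Quotient.sound
      exact ⟨-n, by simp⟩
    simp only [r, this]
  have huniq : ∀ (x : V) (n m : ℤ), (a ^ n) x = (a ^ m) x → n = m := by
    intro x n m h
    have h1 : (a ^ (n - m)) x = x := by
      rw [show n - m = -m + n by ring, zpow_add, Equiv.Perm.mul_apply, h]
      simp
    have := hF.free x _ h1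
    omega
  have hadd : ∀ (x : V) (n : ℤ), h0 ((a ^ n) x) = h0 x + n := by
    intro x n
    apply huniq (r x)
    have h1 := hh0 ((a ^ n) x)
    rw [hrinv] at h1
    rw [h1, add_comm, zpow_add, Equiv.Perm.mul_apply, hh0 x]
  have hadj : ∀ (n : ℤ) (x y : V), X.G.Adj x y → X.G.Adj ((a ^ n) x) ((a ^ n) y) := by
    have hinv : ∀ x y, X.G.Adj x y → X.G.Adj (a⁻¹ x) (a⁻¹ y) := by
      intro x y h
      rw [← hF.adj]
      simpa using h
    intro n
    induction n using Int.induction_on with
    | zero => intro x y h; simpa using h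
    | succ k ih =>
      intro x y h
      rw [add_comm, zpow_add, Equiv.Perm.mul_apply, Equiv.Perm.mul_apply, zpow_one]
      exact (hF.adj _ _).2 (ih x y h)
    | pred k ih =>
      intro x y h
      rw [show (-(k : ℤ) - 1) = -1 + (-(k : ℤ)) by ring, zpow_add, Equiv.Perm.mul_apply,
        Equiv.Perm.mul_apply, zpow_neg_one]
      exact hinv _ _ (ih x y h)
  -- finite sets
  let S' : Set V := r '' S
  have hS' : S'.Finite := hS.image r
  let N : Set V := ⋃ x ∈ S', ({x} ∪ {y | X.G.Adj x y})
  have hN : N.Finite := hS'.biUnion (fun x _ => (Set.finite_singleton x).union (hloc x))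
  refine ⟨h0, ∑ x ∈ hN.toFinset, |h0 x|, Finset.sum_nonneg (fun _ _ => abs_nonneg _), ?_, ?_⟩
  · intro x _
    have := hadd x 1
    simpa using this
  · intro x y hx _ hxy
    have hmem : r x ∈ S' := by
      obtain ⟨n, hn⟩ := hx
      exact ⟨(a ^ n) x, hn, hrinv x n⟩
    have hy : (a ^ (-h0 x)) y ∈ N := by
      have hx' : (a ^ (-h0 x)) x = r x := by
        have h1 := hh0 x
        have h2 : (a ^ (-h0 x)) ((a ^ (h0 x)) (r x)) = r x := by
          rw [← Equiv.Perm.mul_apply, ← zpow_add]; simp
        rw [h1] at h2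
        exact h2
      refine Set.mem_biUnion hmem ?_
      rcases hxy with rfl | hxy
      · left
        exact hx'
      · right
        have := hadj (-h0 x) x y hxy
        rw [hx'] at this
        exact this
    have h1 : h0 ((a ^ (-h0 x)) y) = h0 y + (-h0 x) := hadd _ _
    have h2 : |h0 x - h0 y| = |h0 ((a ^ (-h0 x)) y)| := by
      rw [h1, abs_sub_comm]; rfl
    rw [h2]
    exact Finset.single_le_sum (f := fun x => |h0 x|) (fun _ _ => abs_nonneg _)
      (hN.mem_toFinset.2 hy)

end MSG.H96
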